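import Mathlib
import Pool.Agent.H.MP_f00d09_gt.A

set_option autoImplicit false

namespace Pool.Agent.Results.MP_f00d09_gt.No

open Pool.Agent.H.MP_f00d09_gt

theorem result (hd : H.MP_2e4b78_lc.Dia) : ∃ (X : Type) (_ : TopologicalSpace X), T3Space X ∧
    HereditarilyLindelofSpace X ∧ (∀ A : Set X, A.Countable → Menger (closure A)) ∧ ¬ DSp X :=
  let ⟨X, a, b, c⟩ := H.MP_f00d09_gt.main hd
  ⟨X, inferInstance, inferInstance, a, fun A p => have := (b A p).to_subtype; cm, c⟩

end Pool.Agent.Results.MP_f00d09_gt.No
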